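import Pool.Agent.V11135.Sel.Box

/-!
# Homogeneous selection for colour classes of unequal sizes

For every `d ≥ 1` there is `c > 0` such that any `d + 1` nonempty finite sets
`C 0, …, C d ⊆ ℝ^d` of arbitrary sizes have subsets `D i ⊆ C i` with `|D i| ≥ c |C i|` and a point
`p` lying in the convex hull of `{x 0, …, x d}` for all choices `x i ∈ D i`.

Proof.
* (`selection`) For families `Q i : T → ℝ^d` indexed by one finite set `T` some point lies in
  at least `3 ^ (-d²) |T| ^ (d+1)` of the simplices.  (Discrete Knaster–Kuratowski–Mazurkiewicz /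
  Brouwer argument on a grid in the style of Karasev and Gromov, at scale `ε → 0`.)
* (`exists_regular`) A density increment argument gives a box `∏ S' i` every large sub-box of which
  contains one of these simplices.
* (`centerpoint`, `separate`) If no hyperplane contains more than a small fraction of a class, the
  sets `S' i` can be cut down by a constant factor so that for every `i0` a hyperplane through `p`
  has all the other classes strictly on one side.
* (`transfer_box`) Then either all or none of the simplices of the box contain `p`.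
* (`box_selection`) General position is achieved by replacing every point by `M` points of a small
  moment curve, `M` depending on `d` only, and a compactness argument.
* Unequal sizes: take `T = ∏ C i` and the coordinate projections.
-/

namespace Pool.Agent.Results.MP_c3eb34_co.UnequalSizes

open Finset

/-- The colour classes `C 0, …, C d` admit a homogeneous selection with constant `c`: a point `p`
and subsets `D i ⊆ C i` with `|D i| ≥ c |C i|` such that `p` is in the convex hull of every
transversal `{x 0, …, x d}`, `x i ∈ D i`. -/
def HomogeneousSelection {d : ℕ} (c : ℝ) (C : Fin (d + 1) → Finset (Fin d → ℝ)) : Prop :=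
  ∃ (p : Fin d → ℝ) (D : Fin (d + 1) → Finset (Fin d → ℝ)),
    (∀ i, D i ⊆ C i) ∧ (∀ i, c * ((C i).card : ℝ) ≤ ((D i).card : ℝ)) ∧
    ∀ x : Fin (d + 1) → (Fin d → ℝ), (∀ i, x i ∈ D i) → p ∈ convexHull ℝ (Set.range x)

/-- the fibres of a coordinate projection of a product -/
theorem card_le_fibre {d : ℕ} (C : Fin (d + 1) → Finset (Fin d → ℝ))
    (S : Finset ((i : Fin (d + 1)) → C i)) (i : Fin (d + 1)) :
    S.card * (C i).card ≤
      (S.image fun t => ((t i : C i) : Fin d → ℝ)).card * Fintype.card ((i : Fin (d + 1)) → C i) := by
  classical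
  set N : ℕ := ∏ j ∈ univ.erase i, (C j).card with hN
  have hcard : Fintype.card ((i : Fin (d + 1)) → C i) = (C i).card * N := by
    rw [Fintype.card_pi, hN, Finset.mul_prod_erase univ (fun j => (C j).card) (Finset.mem_univ i)]
    exact Finset.prod_congr rfl fun j _ => Fintype.card_coe _
  have hfib : S.card ≤ N * (S.image fun t => ((t i : C i) : Fin d → ℝ)).card := by
    apply Finset.card_le_mul_card_image
    intro y _
    have h1 : (S.filter fun t => ((t i : C i) : Fin d → ℝ) = y).card ≤
        Fintype.card ((j : {j : Fin (d + 1) // j ≠ i}) → C j.1) := by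
      rw [← Finset.card_univ]
      apply Finset.card_le_card_of_injOn
        (fun (t : (i : Fin (d + 1)) → C i) (j : {j : Fin (d + 1) // j ≠ i}) => t j.1)
        (fun _ _ => Finset.mem_univ _)
      intro t ht t' ht' h
      have e1 := (Finset.mem_filter.1 (Finset.mem_coe.1 ht)).2
      have e2 := (Finset.mem_filter.1 (Finset.mem_coe.1 ht')).2
      funext j
      by_cases hj : j = i
      · subst hj; exact Subtype.ext (e1.trans e2.symm)
      · exact congrFun h ⟨j, hj⟩
    refine h1.trans (le_of_eq ?_)
    rw [Fintype.card_pi, hN]
    simp only [Fintype.card_coe]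
    rw [← Finset.prod_subtype (univ.erase i) (fun j => by simp) (fun j => (C j).card)]
  rw [hcard]
  calc S.card * (C i).card ≤ (N * (S.image fun t => ((t i : C i) : Fin d → ℝ)).card) * (C i).card :=
        Nat.mul_le_mul_right _ hfib
    _ = _ := by ring

/-- **Homogeneous selection for colour classes of unequal sizes.** -/
theorem result : ∀ d : ℕ, 1 ≤ d → ∃ c : ℝ, 0 < c ∧
    ∀ C : Fin (d + 1) → Finset (Fin d → ℝ), (∀ i, (C i).Nonempty) →
      HomogeneousSelection c C := by
  intro d hd
  obtain ⟨c, hc, hmain⟩ := V11135.Sel.box_selection (d := d) hd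
  refine ⟨c, hc, fun C hC => ?_⟩
  classical
  have hne : ∀ i, Nonempty (C i) := fun i => (hC i).to_subtype
  obtain ⟨S, hS, p, hp⟩ := hmain ((i : Fin (d + 1)) → C i) (fun i t => ((t i : C i) : Fin d → ℝ))
  refine ⟨p, fun i => (S i).image fun t => ((t i : C i) : Fin d → ℝ), fun i => ?_, fun i => ?_,
    fun x hx => ?_⟩
  · intro y hy
    obtain ⟨t, -, rfl⟩ := Finset.mem_image.1 hy
    exact (t i).2
  · have h1 := card_le_fibre C (S i) i
    have h2 := hS i
    have hT : (0 : ℝ) < Fintype.card ((i : Fin (d + 1)) → C i) := by
      exact_mod_cast Fintype.card_pos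
    have h3 : ((S i).card : ℝ) * (C i).card ≤
        ((S i).image fun t => ((t i : C i) : Fin d → ℝ)).card *
          Fintype.card ((i : Fin (d + 1)) → C i) := by exact_mod_cast h1
    have h4 : c * Fintype.card ((i : Fin (d + 1)) → C i) * (C i).card ≤
        (S i).card * (C i).card := mul_le_mul_of_nonneg_right h2 (Nat.cast_nonneg _)
    have h5 : (c * (C i).card) * Fintype.card ((i : Fin (d + 1)) → C i) ≤
        ((S i).image fun t => ((t i : C i) : Fin d → ℝ)).card *
          Fintype.card ((i : Fin (d + 1)) → C i) := by
      refine le_trans (le_of_eq ?_) (h4.trans h3)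
      ring
    exact le_of_mul_le_mul_right h5 hT
  · choose t ht1 ht2 using fun i => Finset.mem_image.1 (hx i)
    have h1 := hp t ht1
    unfold V11135.Sel.hull at h1
    have h2 : (fun j => ((t j j : C j) : Fin d → ℝ)) = x := funext fun j => ht2 j
    rw [h2] at h1
    exact h1

end Pool.Agent.Results.MP_c3eb34_co.UnequalSizes
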